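import Pool.Agent.MWV.Stmts

/-!
# MWV, row LBF: the main blocks of the large words after deletion of two lights
-/

set_option autoImplicit false

namespace Pool.Agent.MWV.H60

open Pool.Agent.MWV

theorem cr_head (g : ℕ → Bool) (s : List ℕ) : ∀ k : ℕ, cr g s 0 k = 1 :: (cr g s 0 k).tail
  | 0 => rfl
  | k + 1 => by
    show cr g s 0 k ++ _ = _
    rw [cr_head g s k]
    simp [cr, List.tail_cons]
    rw [cr_head g s k]
    simp

theorem cr_tail (g : ℕ → Bool) (s : List ℕ) (k : ℕ) : (cr g s 0 (k + 1)).tail =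
    (cr g s 0 k).tail ++ (mk g (k + 1) ++ (s ++ [3 * (0 + (k + 1)) + 1])) := by
  show (cr g s 0 k ++ _).tail = _
  conv_lhs => rw [cr_head g s k]
  simp

theorem cr_ge (g : ℕ → Bool) : ∀ k a : ℕ, a ∈ cr g [] 1 k → 4 ≤ a
  | 0, a, h => by
    simp [cr] at h
    omega
  | k + 1, a, h => by
    simp only [cr, List.mem_append, List.nil_append, List.mem_singleton] at h
    rcases h with h | h | h
    · exact cr_ge g k a h
    · unfold mk at h
      split at h
      · rw [List.mem_singleton] at h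
        omega
      · simp at h
    · omega

theorem cr_filter (g : ℕ → Bool) (k c : ℕ) (hc : c ≤ 3) :
    (cr g [] 1 k).filter (fun a => decide (a ≠ c)) = cr g [] 1 k := by
  rw [List.filter_eq_self]
  intro a ha
  have := cr_ge g k a ha
  simp only [decide_eq_true_eq]
  omega

theorem Lb0 (N : ℕ) (g : ℕ → Bool) (k : ℕ) : Lb N g k 0 =
    List.replicate N 0 ++ 1 :: (cr g [] 1 k ++ (List.replicate N 0 ++ [3 * (k + 2) + 1])) := by
  have h := cr_filter g k 3 le_rfl
  have h3 : ∀ n, (List.replicate n 3).filter (fun a => decide (a ≠ 3)) = [] := by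
    intro n
    rw [List.filter_eq_nil_iff]
    intro a ha
    simp [(List.mem_replicate.1 ha).2]
  have h0 : ∀ n, (List.replicate n 0).filter (fun a => decide (a ≠ 3)) = List.replicate n 0 := by
    intro n
    rw [List.filter_eq_self]
    intro a ha
    simp [(List.mem_replicate.1 ha).2]
  have e1 : decide (1 ≠ 3) = true := by decide
  have e2 : decide (3 * (k + 2) + 1 ≠ 3) = true := by
    simp only [decide_eq_true_eq]
    omega
  show (Lp N g [] k).filter (fun a => decide (a ≠ 3)) = _
  unfold Lp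
  rw [List.filter_append, List.filter_cons_of_pos (p := fun a => decide (a ≠ 3)) e1,
    List.filter_append, List.filter_append, List.filter_append,
    List.filter_cons_of_pos (p := fun a => decide (a ≠ 3)) e2, h, h0, h3]
  rfl

theorem Lb1 (N : ℕ) (g : ℕ → Bool) (k : ℕ) : Lb N g k 1 =
    1 :: (List.replicate N 3 ++ (cr g [] 1 k ++ (3 * (k + 2) + 1) :: List.replicate N 3)) := by
  have h := cr_filter g k 0 (by omega)
  have h3 : ∀ n, (List.replicate n 0).filter (fun a => decide (a ≠ 0)) = [] := by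
    intro n
    rw [List.filter_eq_nil_iff]
    intro a ha
    simp [(List.mem_replicate.1 ha).2]
  have h0 : ∀ n, (List.replicate n 3).filter (fun a => decide (a ≠ 0)) = List.replicate n 3 := by
    intro n
    rw [List.filter_eq_self]
    intro a ha
    simp [(List.mem_replicate.1 ha).2]
  have e1 : decide (1 ≠ 0) = true := by decide
  have e2 : decide (3 * (k + 2) + 1 ≠ 0) = true := by
    simp only [decide_eq_true_eq]
    omega
  show (Lp N g [] k).filter (fun a => decide (a ≠ 0)) = _
  unfold Lp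
  rw [List.filter_append, List.filter_cons_of_pos (p := fun a => decide (a ≠ 0)) e1,
    List.filter_append, List.filter_append, List.filter_append,
    List.filter_cons_of_pos (p := fun a => decide (a ≠ 0)) e2, h, h0, h3]
  rfl

theorem fj_light (jj : ℕ → Option ℕ) (hh : ℕ → List ℕ) (e : ℕ) :
    fj jj hh (3 * e + 1) = (jj e).elim [] (fun i => [3 * i + 1]) := by
  have h1 : (3 * e + 1) % 3 = 1 := by omega
  have h2 : (3 * e + 1) / 3 = e := by omega
  unfold fj
  rw [h1, h2]
  simp

theorem fj_mk (jj : ℕ → Option ℕ) (d : ℕ) (hd1 : d ≤ 1) (v : List ℕ) (g : ℕ → Bool) (j : ℕ)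
    (hj : 1 ≤ j) : (mk g j).flatMap (fj jj (hd d v)) = mk g j := by
  unfold mk
  split
  · have h1 : (3 * j + 3) % 3 = 0 := by omega
    have h2 : ¬ (3 * j + 3 = 3 * d) := by omega
    simp [fj, h1, hd, h2]
  · rfl

theorem fj_cr (jj : ℕ → Option ℕ) (d : ℕ) (hd1 : d ≤ 1) (v : List ℕ) (g : ℕ → Bool) :
    ∀ k : ℕ, (∀ i, 1 ≤ i → i ≤ k → jj (i + 1) = some i) →
      (cr g [] 1 k).flatMap (fj jj (hd d v)) =
        (jj 1).elim [] (fun i => [3 * i + 1]) ++ (cr g [] 0 k).tail
  | 0, _ => by
    have h := fj_light jj (hd d v) 1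
    simp only [cr, List.flatMap_cons, List.flatMap_nil, List.append_nil, List.tail_cons]
    exact h
  | k + 1, hk => by
    have h1 := fj_cr jj d hd1 v g k (fun i hi hik => hk i hi (by omega))
    have h2 := fj_light jj (hd d v) (1 + (k + 1))
    rw [show 1 + (k + 1) = (k + 1) + 1 by omega, hk (k + 1) (by omega) le_rfl] at h2
    rw [cr_tail]
    show (cr g [] 1 k ++ (mk g (k + 1) ++ ([] ++ [3 * (1 + (k + 1)) + 1]))).flatMap _ = _
    rw [List.flatMap_append, List.flatMap_append, h1, fj_mk jj d hd1 v g (k + 1) (by omega),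
      List.nil_append, List.flatMap_cons, List.flatMap_nil, List.append_nil,
      show 1 + (k + 1) = (k + 1) + 1 by omega, h2]
    simp

theorem fj_zero (jj : ℕ → Option ℕ) (v : List ℕ) : fj jj (hd 0 v) 0 = v := by
  simp [fj, hd]

theorem fj_three (jj : ℕ → Option ℕ) (v : List ℕ) : fj jj (hd 1 v) 3 = v := by
  simp [fj, hd]

theorem lbf : LbfStmt := by
  intro N g k v hk
  have hh := cr_head g [] k
  have hj1 : ∀ i, 1 ≤ i → i ≤ k → j1 k (i + 1) = some i := by
    intro i h1 h2
    have h3 : ¬ (i + 1 = 0 ∨ i + 1 = k + 2) := by omega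
    simp only [j1, h3, if_false]
    rfl
  have hj2 : ∀ i, 1 ≤ i → i ≤ k → j2 k (i + 1) = some i := by
    intro i h1 h2
    have h3 : ¬ (i + 1 = 1 ∨ i + 1 = k + 2) := by omega
    simp only [j2, h3, if_false]
    rfl
  have hj3 : ∀ i, 1 ≤ i → i ≤ k - 1 → j3 k (i + 1) = some i := by
    intro i h1 h2
    have h3 : ¬ (i + 1 = 0 ∨ i + 1 = k + 1) := by omega
    have h4 : ¬ (i + 1 = k + 2) := by omega
    simp only [j3, h3, h4, if_false]
    rfl
  have l1 : ∀ jj : ℕ → Option ℕ, ∀ d, fj jj (hd d v) 1 = (jj 0).elim [] (fun i => [3 * i + 1]) :=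
    fun jj d => fj_light jj (hd d v) 0
  have a1 : j1 k 0 = none := by simp [j1]
  have a2 : j1 k 1 = some 0 := by
    have : ¬ (1 = 0 ∨ 1 = k + 2) := by omega
    simp only [j1, this, if_false]
  have a3 : j1 k (k + 2) = none := by simp [j1]
  have b1 : j2 k 0 = some 0 := by
    have : ¬ (0 = 1 ∨ 0 = k + 2) := by omega
    simp only [j2, this, if_false]
  have b2 : j2 k 1 = none := by simp [j2]
  have b3 : j2 k (k + 2) = none := by simp [j2]
  have c1 : j3 k 0 = none := by simp [j3]
  have c2 : j3 k 1 = some 0 := by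
    have h3 : ¬ (1 = 0 ∨ 1 = k + 1) := by omega
    have h4 : ¬ (1 = k + 2) := by omega
    simp only [j3, h3, h4, if_false]
  have c3 : j3 k (k + 2) = some k := by
    have h3 : ¬ (k + 2 = 0 ∨ k + 2 = k + 1) := by omega
    simp only [j3, h3, if_false, if_true]
  have c4 : j3 k (k + 1) = none := by simp [j3]
  have u1 : ∀ d, d ≤ 1 → (cr g [] 1 k).flatMap (fj (j1 k) (hd d v)) = cr g [] 0 k := by
    intro d h
    rw [fj_cr (j1 k) d h v g k hj1, a2]
    conv_rhs => rw [hh]
    rfl
  have u2 : ∀ d, d ≤ 1 → (cr g [] 1 k).flatMap (fj (j2 k) (hd d v)) = (cr g [] 0 k).tail := by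
    intro d h
    rw [fj_cr (j2 k) d h v g k hj2, b2]
    rfl
  have u3 : (cr g [] 1 k).flatMap (fj (j3 k) (hd 1 v)) ++ [3 * k + 1] = cr g [] 0 k := by
    obtain ⟨m, rfl⟩ : ∃ m, k = m + 1 := ⟨k - 1, by omega⟩
    have h2 := fj_light (j3 (m + 1)) (hd 1 v) (1 + (m + 1))
    rw [show 1 + (m + 1) = (m + 1) + 1 by omega, c4] at h2
    show (cr g [] 1 m ++ (mk g (m + 1) ++ ([] ++ [3 * (1 + (m + 1)) + 1]))).flatMap _ ++ _ =
      cr g [] 0 m ++ (mk g (m + 1) ++ ([] ++ [3 * (0 + (m + 1)) + 1]))
    rw [List.flatMap_append, List.flatMap_append, fj_cr (j3 (m + 1)) 1 le_rfl v g m hj3,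
      fj_mk (j3 (m + 1)) 1 le_rfl v g (m + 1) (by omega),
      List.nil_append, List.flatMap_cons, List.flatMap_nil, List.append_nil,
      show 1 + (m + 1) = (m + 1) + 1 by omega, h2, c2]
    conv_rhs => rw [cr_head g [] m]
    simp
  refine ⟨?_, ?_, ?_, ?_, ?_, hh⟩
  · rw [Lb0, List.flatMap_append, List.flatMap_cons, List.flatMap_append, List.flatMap_append,
      u1 0 (by omega), List.flatMap_replicate, fj_zero, l1, a1, List.flatMap_cons, fj_light, a3]
    simp
  · rw [Lb0, List.flatMap_append, List.flatMap_cons, List.flatMap_append, List.flatMap_append,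
      u2 0 (by omega), List.flatMap_replicate, fj_zero, l1, b1, List.flatMap_cons, fj_light, b3]
    conv_rhs => rw [hh]
    simp
  · rw [Lb1, List.flatMap_cons, List.flatMap_append, List.flatMap_append, List.flatMap_cons,
      u1 1 le_rfl, List.flatMap_replicate, fj_three, l1, a1, fj_light, a3]
    simp
  · rw [Lb1, List.flatMap_cons, List.flatMap_append, List.flatMap_append, List.flatMap_cons,
      List.flatMap_replicate, fj_three, l1, c1, fj_light, c3]
    conv_rhs => rw [← u3]
    simp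
  · rw [Lb1, List.flatMap_cons, List.flatMap_append, List.flatMap_append, List.flatMap_cons,
      u2 1 le_rfl, List.flatMap_replicate, fj_three, l1, b1, fj_light, b3]
    simp

end Pool.Agent.MWV.H60
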