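import Pool.Agent.MWV.Stmts

/-!
# MWV, row PJM: deletion of two lights in the places of the large words
-/

set_option autoImplicit false

namespace Pool.Agent.MWV.H60

open Pool.Agent.MWV

theorem fm_aux (t : ℕ → List ℕ) (f : ℕ → Option ℕ) (p : ℕ → Bool) : ∀ P : List ℕ,
    (∀ e ∈ P, (t e).filterMap f = if p e then [e] else []) →
      (P.flatMap t).filterMap f = P.filter p
  | [], _ => rfl
  | e :: P, h => by
    rw [List.flatMap_cons, List.filterMap_append, h e (by simp),
      fm_aux t f p P (fun e' he' => h e' (List.mem_cons_of_mem _ he'))]
    by_cases hp : p e = true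
    · simp [hp]
    · simp [hp]

theorem pjm : PjmStmt := by
  intro k P hk hP
  have ht : ∀ Q : List ℕ, Q.filter (fun _ => true) = Q := fun Q => by simp
  refine ⟨?_, ?_, ?_, ?_⟩
  · unfold PP
    rw [fm_aux (tw k) (j1 k) (fun _ => true) P, ht]
    intro e he
    have hek := hP e he
    unfold tw j1
    by_cases h0 : e = 0
    · subst h0
      have : ¬ (0 = k) := by omega
      have h3 : ¬ (1 = k + 2) := by omega
      simp [this, List.filterMap_cons, h3]
    · by_cases h1 : e = k
      · subst h1
        simp [h0, List.filterMap_cons]
      · have : ¬ (e = k + 1) := by omega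
        simp [h0, h1, List.filterMap_cons, this]
  · unfold PP
    rw [fm_aux (tw k) (j2 k) (fun _ => true) P, ht]
    intro e he
    have hek := hP e he
    unfold tw j2
    by_cases h0 : e = 0
    · subst h0
      have : ¬ (0 = k) := by omega
      have h3 : ¬ (0 = k + 2) := by omega
      simp [this, List.filterMap_cons]
    · by_cases h1 : e = k
      · subst h1
        simp [h0, List.filterMap_cons]
      · have : ¬ (e = k + 1) := by omega
        simp [h0, h1, List.filterMap_cons, this]
  · unfold PP
    rw [fm_aux (tw k) (j3 k) (fun _ => true) P, ht]
    intro e he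
    have hek := hP e he
    unfold tw j3
    by_cases h0 : e = 0
    · subst h0
      have : ¬ (0 = k) := by omega
      have h3 : ¬ (k = 0) := by omega
      simp [this, List.filterMap_cons, h3]
    · by_cases h1 : e = k
      · subst h1
        simp [h0, List.filterMap_cons]
      · have : ¬ (e = k + 1) := by omega
        simp [h0, h1, List.filterMap_cons, this]
  · intro j hj1 hjk
    unfold PP
    refine fm_aux (tw k) (fun i => if i = j then some (j - 1) else if i = j + 1 then some j
      else none) (fun e => decide (e + 1 = j ∨ e = j)) P ?_
    intro e he
    have hek := hP e he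
    unfold tw
    by_cases h0 : e = 0
    · subst h0
      have h1 : ¬ (0 = k) := by omega
      have h2 : ¬ (0 = j) := by omega
      have h3 : ¬ (0 = j + 1) := by omega
      have h4 : ¬ (1 = j + 1) := by omega
      by_cases h5 : 1 = j
      · subst h5
        simp [h1, List.filterMap_cons]
      · have h6 : ¬ (j = 0) := by omega
        simp [h1, List.filterMap_cons, h2, h5, h6]
    · by_cases h1 : e = k
      · subst h1
        have h2 : ¬ (e + 1 = j) := by omega
        have h3 : ¬ (e + 2 = j) := by omega
        have h4 : ¬ (e + 2 = j + 1) := by omega
        by_cases h5 : e = j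
        · subst h5
          simp [h0, List.filterMap_cons]
        · have h6 : ¬ (e + 1 = j + 1) := by omega
          simp [h0, List.filterMap_cons, h2, h3, h4, h5]
      · by_cases h2 : e + 1 = j
        · have h3 : j - 1 = e := by omega
          simp [h0, h1, List.filterMap_cons, h2, h3]
        · by_cases h5 : e = j
          · subst h5
            simp [h0, h1, List.filterMap_cons]
          · simp [h0, h1, List.filterMap_cons, h2, h5]

end Pool.Agent.MWV.H60
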